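import Pool.Agent.DPF.Stmts

/-!
Squad DPF, row GAI: the gain at `c ∉ B`.
-/

set_option autoImplicit false

namespace Pool.Agent.DPF.H3

open Finset Pool.Agent.DPS Pool.Agent.DPF

theorem mm_se_nonneg (ν k b e : ℕ) : 0 ≤ (mm ν k b e : ℝ) * se ν k e := by
  by_cases h : e + b ≤ k
  · have h1 : (e : ℝ) ≤ k := by
      have : e ≤ k := by omega
      exact_mod_cast this
    refine mul_nonneg (Nat.cast_nonneg _) ?_
    unfold se
    exact div_nonneg (Nat.cast_nonneg _) (by linarith)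
  · have : mm ν k b e = 0 := by unfold mm; rw [if_neg h]
    rw [this]
    simp

theorem gai (hS : SEFStmt) (hL : SLPStmt) : GAIStmt := by
  classical
  intro n k b θ c 𝒯 st j A hb
  obtain ⟨ν, hν⟩ : ∃ ν, ν = n - c.val := ⟨_, rfl⟩
  rw [← hν] at hb ⊢
  have hbν : (b : ℝ) < ν := by exact_mod_cast hb
  obtain ⟨X, hX⟩ : ∃ X, X = ov (XX c 𝒯) A := ⟨_, rfl⟩
  obtain ⟨β, hβ⟩ : ∃ β : ℝ, β = (b : ℝ) / ((ν : ℝ) - b) := ⟨_, rfl⟩
  have hβ0 : 0 ≤ β := by
    rw [hβ]
    exact div_nonneg (Nat.cast_nonneg _) (by linarith)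
  obtain ⟨H, hH⟩ : ∃ H, H = hh st j X (fun E => (mm ν k b E.card : ℝ)) := ⟨_, rfl⟩
  obtain ⟨G, hG⟩ : ∃ G, G = gg ν k st j X (fun E => (mm ν k b E.card : ℝ)) := ⟨_, rfl⟩
  obtain ⟨G1, hG1⟩ : ∃ G1, G1 = gm ν k st j X (fun E => (mm ν k (b + 1) E.card : ℝ)) := ⟨_, rfl⟩
  obtain ⟨a0, ha0⟩ : ∃ a0, a0 = sm ν k b (AA c 𝒯) A := ⟨_, rfl⟩
  have hd0 : d0 c 𝒯 k b A = a0 + ∑ E ∈ X, (mm ν k (b + 1) E.card : ℝ) := by
    rw [ha0, hX, hν]; rfl
  have hdn : dn c 𝒯 k b st j A = a0 + H := by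
    rw [ha0, hH, hX, hν]; rfl
  rw [← hX, ← hβ, ← hH, ← hG, ← hG1, ← ha0, hdn]
  -- the point facts
  have hE1 : ∀ e : ℕ, (mm ν k (b + 1) e : ℝ) * se ν k e + β * (se ν k e - 1) * (mm ν k b e : ℝ) ≤
      (mm ν k b e : ℝ) := by
    intro e
    rw [hβ]
    exact (hS ν k b e).1 hb
  have hE2 : ∀ e : ℕ, 0 ≤ β * (se ν k e - 1) * (mm ν k b e : ℝ) := by
    intro e
    rcases Nat.eq_zero_or_pos b with h0 | h0
    · have : β = 0 := by rw [hβ, h0]; simp
      rw [this]; simp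
    · by_cases hm : mm ν k b e = 0
      · rw [hm]; simp
      · have h2 : ¬ (k ≤ e ∨ e + ν < k) := fun h => hm ((hS ν k b e).2.1 h0 hb.le h)
        rw [not_or, not_le, not_lt] at h2
        obtain ⟨h3, h4⟩ := h2
        have h5 : (0 : ℝ) < (k : ℝ) - e := by
          have : (e : ℝ) < k := by exact_mod_cast h3
          linarith
        have h6 : (k : ℝ) - e ≤ ν := by
          have : (k : ℝ) ≤ e + ν := by exact_mod_cast h4
          linarith
        have h7 : 1 ≤ se ν k e := by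
          unfold se
          rw [le_div_iff₀ h5]; linarith
        have h8 : (0 : ℝ) ≤ (mm ν k b e : ℝ) := Nat.cast_nonneg _
        exact mul_nonneg (mul_nonneg hβ0 (by linarith)) h8
  have hG2 : β * (G - H) = ∑ E ∈ X, if kp st j E then
      β * (se ν k E.card - 1) * (mm ν k b E.card : ℝ) else 0 := by
    rw [hG, hH, gg, hh, ← Finset.sum_sub_distrib, Finset.mul_sum]
    refine Finset.sum_congr rfl fun E _ => ?_
    split_ifs
    · ring
    · ring
  have hDG : d0 c 𝒯 k b A + G1 = a0 + ∑ E ∈ X, if kp st j E then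
      (mm ν k (b + 1) E.card : ℝ) * se ν k E.card else 0 := by
    rw [hd0, hG1, gm, add_assoc, ← Finset.sum_add_distrib]
    congr 1
    refine Finset.sum_congr rfl fun E _ => ?_
    split_ifs
    · ring
    · ring
  have k1 : d0 c 𝒯 k b A + G1 + β * (G - H) ≤ a0 + H := by
    rw [hDG, hG2, add_assoc, ← Finset.sum_add_distrib]
    rw [hH, hh]
    refine add_le_add le_rfl (Finset.sum_le_sum fun E _ => ?_)
    split_ifs
    · exact hE1 E.card
    · simp
  have k2 : 0 ≤ β * (G - H) := by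
    rw [hG2]
    refine Finset.sum_nonneg fun E _ => ?_
    split_ifs
    · exact hE2 E.card
    · exact le_rfl
  have k3 : β * (G - H) ≤ H := by
    rw [hG2, hH, hh]
    refine Finset.sum_le_sum fun E _ => ?_
    split_ifs
    · have := hE1 E.card
      have h2 := mm_se_nonneg ν k (b + 1) E.card
      linarith
    · exact le_rfl
  obtain ⟨s1, _, s3⟩ := hL θ
  have m1 : ph θ (d0 c 𝒯 k b A + G1) ≤ ph θ (a0 + H - β * (G - H)) :=
    s3 _ _ (by linarith)
  have goal' : β * ((G - H) * ((ph θ (a0 + H) - ph θ a0) / H)) ≤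
      ph θ (a0 + H) - ph θ (a0 + H - β * (G - H)) := by
    rcases eq_or_lt_of_le (le_trans k2 k3) with h0 | h0
    · rw [← h0, div_zero, mul_zero, mul_zero]
      have := s3 (a0 + 0 - β * (G - 0)) (a0 + 0) (by rw [← h0] at k2; linarith)
      linarith
    · have := s1 (a0 + H) (β * (G - H)) H k2 k3 h0
      have e : a0 + H - H = a0 := by ring
      rw [e] at this
      calc β * ((G - H) * ((ph θ (a0 + H) - ph θ a0) / H)) =
          β * (G - H) * ((ph θ (a0 + H) - ph θ a0) / H) := by ring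
        _ ≤ _ := this
  linarith

end Pool.Agent.DPF.H3
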