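import Pool.Agent.DPF.StmtsM

/-!
Squad DPF, row SPA.
-/

namespace Pool.Agent.DPF.H3

open Finset Pool.Agent.DPS Pool.Agent.DPF

theorem dd_small (t L e : ℕ) (h : 2 * e ≤ L + t - 1) : dd t L e = L + t - 1 - 2 * e := by
  unfold dd; omega

theorem wt_nonneg (del' : DELStmt) (k t L i : ℕ) (ht : 3 ≤ t) (hL : t + 2 ≤ L)
    (hk : L + t + 1 ≤ 2 * k) : 0 ≤ wt L (del k t L) i := by
  obtain ⟨_, _, h3, _, h5⟩ := del' k t L ht hL hk
  unfold wt
  split_ifs
  · have := h5 i; linarith
  · have := h3 i; linarith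

theorem spa (wts : WTSStmt) (sta' : STAStmt) (del' : DELStmt) (fac : FACStmt) : SPAStmt := by
  intro k t L a M ht hL hk ha hM hc
  obtain ⟨hM0, hMs, hM1⟩ := hM
  obtain ⟨_, d2, d3, d4, d5⟩ := del' k t L ht hL hk
  obtain ⟨f0, f1, _, f3⟩ := fac k t L ht hL hk
  set e0 : ℕ := max (a + 1) t with he0
  have hmass : ∀ e, M e ≠ 0 → e0 ≤ e ∧ e + 1 ≤ L ∧ e < k := fun e he => by
    obtain ⟨h1, h2, h3, h4⟩ := hMs e he
    exact ⟨max_le h1 h2, h3, h4⟩
  have hex : ∃ e, M e ≠ 0 := by
    by_contra hcon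
    push Not at hcon
    rw [Finset.sum_eq_zero (fun e _ => hcon e)] at hM1
    linarith
  obtain ⟨e1, he1⟩ := hex
  obtain ⟨h1, h2, h3⟩ := hmass e1 he1
  have hte : t ≤ e0 := le_max_right _ _
  have hae : a + 1 ≤ e0 := le_max_left _ _
  have hs : 2 * e0 ≤ L + t - 1 := by
    rcases max_choice (a + 1) t with h | h <;> rw [← he0] at h <;> omega
  have hdd : dd t L e0 = L + t - 1 - 2 * e0 := dd_small t L e0 hs
  have hdr : ((dd t L e0 : ℕ) : ℝ) = (L : ℝ) + t - 1 - 2 * e0 := by
    have h5 : dd t L e0 + 2 * e0 + 1 = L + t := by omega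
    have h6 : ((dd t L e0 : ℕ) : ℝ) + 2 * e0 + 1 = (L : ℝ) + t := by exact_mod_cast h5
    linarith
  have hmin : min ((L : ℝ) - a - 1) ((L : ℝ) - t) = (L : ℝ) - e0 := by
    have : (e0 : ℝ) = max ((a : ℝ) + 1) t := by rw [he0]; push_cast; rfl
    rw [this]
    rcases le_total ((a : ℝ) + 1) t with h | h
    · rw [max_eq_right h, min_eq_right (by linarith)]
    · rw [max_eq_left h, min_eq_left (by linarith)]; ring
  have hk0 : e0 < k := by omega
  have hL0 : e0 + 1 ≤ L := by omega
  have hσ : 0 < s0 k t L e0 := f0 e0 hk0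
  have hLa : (0 : ℝ) < (L : ℝ) - a := by
    have : ((a + 2 : ℕ) : ℝ) ≤ L := by exact_mod_cast ha
    push_cast at this; linarith
  have hLp : (0 : ℝ) < L := by
    have : 0 < L := by omega
    exact_mod_cast this
  refine ⟨s0 k t L e0, hσ.le, fun e he => ?_, ?_⟩
  · obtain ⟨h4, h5, h6⟩ := hmass e he
    exact f1 e0 e h4 h6
  have hx0 : ∀ e, 0 ≤ xe L a M e := by
    intro e
    unfold xe
    by_cases h : M e = 0
    · rw [h, zero_mul]
    · refine mul_nonneg (hM0 e) (div_nonneg ?_ hLa.le)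
      have := (hMs e h).1
      have h7 : (a : ℝ) < e := by exact_mod_cast this
      linarith
  set X : ℝ := ∑ e ∈ range L, xe L a M e with hX
  set Q : ℝ := ((L : ℝ) - a) / L * (s0 k t L e0 * (max (1 - X) 0) ^ 2) with hQ
  have hdB : ∀ i, dd t L e0 ≤ i → dB L a (sta k t L i) M ≤ X := by
    intro i hi
    unfold dB
    refine Finset.sum_le_sum fun e _ => ?_
    by_cases h : M e = 0
    · have hxe : xe L a M e = 0 := by unfold xe; rw [h, zero_mul]
      rw [h, hxe]; split_ifs <;> exact le_rfl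
    · obtain ⟨h4, h5, h6⟩ := hmass e h
      obtain ⟨s1, s2, s3⟩ := sta' k t L i e (by omega) h6
      rcases Nat.lt_or_ge (L + t - 1) (k + e) with h7 | h7
      · rcases Nat.lt_or_ge (L + t - 1) (2 * e) with h8 | h8
        · rw [s2 (by omega) h8]
          by_cases h12 : i < dd t L e
          · rw [if_pos h12]
            simp only [one_ne_zero, if_false, if_true]
            exact hx0 e
          · rw [if_neg h12]
            norm_num
        · have h9 : ¬ i < dd t L e := by
            rw [dd_small t L e h8]; omega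
          rw [s3 (by omega) h8, if_neg h9]
          norm_num
      · rw [s1 h7]
        simp only [one_ne_zero, if_false, if_true]
        exact hx0 e
  have hterm : ∀ i ∈ range L, wt L (del k t L) i * (if i < dd t L e0 then (0 : ℝ) else Q) ≤
      wt L (del k t L) i *
          ((a : ℝ) / L * (s0 k t L e0 * (max (1 - dA L (sta k t L i) M) 0) ^ 2) +
            ((L : ℝ) - a) / L * (s0 k t L e0 * (max (1 - dB L a (sta k t L i) M) 0) ^ 2)) := by
    intro i _
    refine mul_le_mul_of_nonneg_left ?_ (wt_nonneg del' k t L i ht hL hk)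
    have hA : 0 ≤ (a : ℝ) / L * (s0 k t L e0 * (max (1 - dA L (sta k t L i) M) 0) ^ 2) := by
      positivity
    split_ifs with hi
    · have hB : 0 ≤ ((L : ℝ) - a) / L *
          (s0 k t L e0 * (max (1 - dB L a (sta k t L i) M) 0) ^ 2) := by
        refine mul_nonneg (div_nonneg hLa.le hLp.le) (by positivity)
      linarith
    · have h10 := hdB i (by omega)
      have h11 : (max (1 - X) 0) ^ 2 ≤ (max (1 - dB L a (sta k t L i) M) 0) ^ 2 := by
        refine pow_le_pow_left₀ (le_max_right _ _) ?_ 2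
        exact max_le_max (by linarith) le_rfl
      have h12 : Q ≤ ((L : ℝ) - a) / L *
          (s0 k t L e0 * (max (1 - dB L a (sta k t L i) M) 0) ^ 2) := by
        rw [hQ]
        refine mul_le_mul_of_nonneg_left ?_ (div_nonneg hLa.le hLp.le)
        exact mul_le_mul_of_nonneg_left h11 hσ.le
      linarith
  refine le_trans ?_ (Finset.sum_le_sum hterm)
  rw [wts L (del k t L) (dd t L e0) 0 Q (by omega) d2]
  have hf := f3 e0 hte hL0 hk0
  have hden : (L : ℝ) - t + 1 + (dd t L e0 : ℕ) = 2 * ((L : ℝ) - e0) := by rw [hdr]; ring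
  rw [hden] at hf
  rw [hmin, hQ, mul_zero, zero_add]
  calc ((L : ℝ) - a) / L * (((t : ℝ) + 1) * ((L : ℝ) - t + 1) / (2 * ((L : ℝ) - e0))) *
        (max (1 - X) 0) ^ 2
      = (((L : ℝ) - a) / L * (max (1 - X) 0) ^ 2) *
        (((t : ℝ) + 1) * ((L : ℝ) - t + 1) / (2 * ((L : ℝ) - e0))) := by ring
    _ ≤ (((L : ℝ) - a) / L * (max (1 - X) 0) ^ 2) *
        (s0 k t L e0 * (1 - del k t L (dd t L e0))) := by
        refine mul_le_mul_of_nonneg_left hf ?_
        exact mul_nonneg (div_nonneg hLa.le hLp.le) (by positivity)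
    _ = (1 - del k t L (dd t L e0)) *
        (((L : ℝ) - a) / L * (s0 k t L e0 * (max (1 - X) 0) ^ 2)) := by ring

end Pool.Agent.DPF.H3
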